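import Pool.Agent.H534R3.CircNull
import Pool.Agent.H534R3.Rot

/-!
# Homeomorphism groups of balls and spheres: meagre plus Haar null

Every group of homeomorphisms of the closed ball of dimension `d + 2`, or of the sphere of
dimension `d + 1`, which contains the rotations of one coordinate plane can be partitioned into a
meagre set and a Haar null set.
-/

set_option autoImplicit false

open MeasureTheory Topology

namespace Pool.Agent.Results.MP_4235af_lc.BallsAndSpheres

/-- The closed unit ball of the Euclidean space of dimension `n`. -/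
abbrev Ball (n : ℕ) : Type := Metric.closedBall (0 : EuclideanSpace ℝ (Fin n)) 1

/-- The unit sphere of the Euclidean space of dimension `n`. -/
abbrev Sph (n : ℕ) : Type := Metric.sphere (0 : EuclideanSpace ℝ (Fin n)) 1

/-- The inclusion of the boundary sphere in the ball. -/
def incl {n : ℕ} (x : Sph n) : Ball n := ⟨x.1, Metric.sphere_subset_closedBall x.2⟩

/-- The orientation preserving homeomorphisms of the ball: those which restrict on the boundary
sphere to a self-map homotopic to the identity. -/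
def HomeoPlusBall (n : ℕ) : Set C(Ball n, Ball n) :=
  {f | Function.Bijective f ∧ ∃ φ : C(Sph n, Sph n), (∀ x : Sph n, f (incl x) = incl (φ x)) ∧
    φ.Homotopic (ContinuousMap.id (Sph n))}

/-- The orientation preserving homeomorphisms of the sphere: those homotopic to the identity. -/
def HomeoPlusSphere (n : ℕ) : Set C(Sph n, Sph n) :=
  {f | Function.Bijective f ∧ f.Homotopic (ContinuousMap.id (Sph n))}

/-- `v` is the image of `u` under the rotation of the plane of the first two coordinates with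
cosine `c` and sine `s`. -/
def IsRot {d : ℕ} (c s : ℝ) (u v : EuclideanSpace ℝ (Fin (d + 2))) : Prop :=
  v 0 = c * u 0 - s * u 1 ∧ v 1 = s * u 0 + c * u 1 ∧ ∀ i : Fin d, v i.succ.succ = u i.succ.succ

/-- `N` is Haar null in the group `G` of homeomorphisms of `X`: it lies in a Borel set all of
whose two-sided translates are null for one Borel probability measure. -/
def HaarNull {X : Type} [TopologicalSpace X] {G : Set C(X, X)} (N : Set G) : Prop :=
  ∃ B : Set G, N ⊆ B ∧ @MeasurableSet G (borel G) B ∧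
    ∃ μ : @Measure G (borel G), @IsProbabilityMeasure G (borel G) μ ∧
      ∀ g h : G, μ {x : G | ∃ b ∈ B, x.1 = g.1.comp (b.1.comp h.1)} = 0

/-- The group `G` of homeomorphisms of `X` can be partitioned into a meagre set and a Haar null
set. -/
def Partitioned {X : Type} [TopologicalSpace X] (G : Set C(X, X)) : Prop :=
  ∃ M N : Set G, M ∪ N = Set.univ ∧ Disjoint M N ∧ IsMeagre M ∧ HaarNull N

theorem partitioned_of {X : Type} [TopologicalSpace X] (G : Set C(X, X))
    (h : ∃ M N : Set G, M ∪ N = Set.univ ∧ IsMeagre M ∧ ∃ B : Set G, N ⊆ B ∧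
      @MeasurableSet G (borel G) B ∧ ∃ μ : @Measure G (borel G),
        @IsProbabilityMeasure G (borel G) μ ∧ ∀ g h : G,
          μ {x : G | ∃ b ∈ B, x.1 = g.1.comp (b.1.comp h.1)} = 0) : Partitioned G := by
  obtain ⟨M, N, h1, h2, B, h3, h4⟩ := h
  refine ⟨M, N \ M, ?_, ?_, h2, B, fun x hx => h3 hx.1, h4⟩
  · rw [Set.union_sdiff_self, h1]
  · exact Set.disjoint_sdiff_right

theorem and_rotate_of {a b c : Prop} (h : a ∧ b ∧ c) : c ∧ a ∧ b := ⟨h.2.2, h.1, h.2.1⟩

/-- `G` contains the rotations of the ball in the first two coordinates. -/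
def RotBall {d : ℕ} (G : Set C(Ball (d + 2), Ball (d + 2))) : Prop :=
  ∀ c s : ℝ, c ^ 2 + s ^ 2 = 1 → ∀ f : C(Ball (d + 2), Ball (d + 2)),
    (∀ x, IsRot c s x.1 (f x).1) → f ∈ G

/-- `G` contains the rotations of the sphere in the first two coordinates. -/
def RotSphere {d : ℕ} (G : Set C(Sph (d + 2), Sph (d + 2))) : Prop :=
  ∀ c s : ℝ, c ^ 2 + s ^ 2 = 1 → ∀ f : C(Sph (d + 2), Sph (d + 2)),
    (∀ x, IsRot c s x.1 (f x).1) → f ∈ G

/-- The elements of `G` are homeomorphisms (of a compact Hausdorff space). -/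
def Homeos {X : Type} [TopologicalSpace X] (G : Set C(X, X)) : Prop :=
  ∀ f ∈ G, Function.Bijective f

theorem result :
    (∀ n : ℕ, 2 ≤ n → Partitioned (HomeoPlusBall n) ∧ Partitioned (HomeoPlusSphere (n + 1))) ∧
    (∀ (d : ℕ) (G : Set C(Ball (d + 2), Ball (d + 2))), Homeos G → RotBall G → Partitioned G) ∧
    (∀ (d : ℕ) (G : Set C(Sph (d + 2), Sph (d + 2))), Homeos G → RotSphere G →
      Partitioned G) := by
  refine and_rotate_of ⟨?_, ?_, ?_⟩
  · intro d G hG hR
    refine partitioned_of G ?_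
    exact Pool.Agent.H534R3.CircNull.decompose (X := Pool.Agent.H534R3.Rot.DD d)
      G hG Pool.Agent.H534R3.Rot.RD Pool.Agent.H534R3.Rot.continuous_RD
      (fun t => hR _ _ (Pool.Agent.H534R3.Rot.cc_sq t) _ fun x => ⟨rfl, rfl, fun i => rfl⟩)
      Pool.Agent.H534R3.Rot.RD_zero Pool.Agent.H534R3.Rot.RD_add (1 / 2) one_half_pos
      Pool.Agent.H534R3.Rot.ball_big (borel _) rfl
  · intro d G hG hR
    refine partitioned_of G ?_
    exact Pool.Agent.H534R3.CircNull.decompose (X := Pool.Agent.H534R3.Rot.SS d)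
      G hG Pool.Agent.H534R3.Rot.RS Pool.Agent.H534R3.Rot.continuous_RS
      (fun t => hR _ _ (Pool.Agent.H534R3.Rot.cc_sq t) _ fun x => ⟨rfl, rfl, fun i => rfl⟩)
      Pool.Agent.H534R3.Rot.RS_zero Pool.Agent.H534R3.Rot.RS_add 1 one_pos
      Pool.Agent.H534R3.Rot.sphere_big (borel _) rfl
  · intro n hn
    constructor
    · obtain ⟨d, rfl⟩ : ∃ d, n = d + 2 := ⟨n - 2, by omega⟩
      refine partitioned_of _ ?_
      refine Pool.Agent.H534R3.CircNull.decompose (X := Pool.Agent.H534R3.Rot.DD d)
        (HomeoPlusBall (d + 2)) (fun f hf => hf.1) Pool.Agent.H534R3.Rot.RD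
        Pool.Agent.H534R3.Rot.continuous_RD
        (fun s => ⟨Pool.Agent.H534R3.Rot.RD_bijective s, ?_⟩)
        Pool.Agent.H534R3.Rot.RD_zero Pool.Agent.H534R3.Rot.RD_add (1 / 2) one_half_pos
        Pool.Agent.H534R3.Rot.ball_big (borel _) rfl
      exact ⟨Pool.Agent.H534R3.Rot.RS s, fun x => rfl, Pool.Agent.H534R3.Rot.RS_homotopic s⟩
    · obtain ⟨d, rfl⟩ : ∃ d, n = d + 1 := ⟨n - 1, by omega⟩
      refine partitioned_of _ ?_
      exact Pool.Agent.H534R3.CircNull.decompose (X := Pool.Agent.H534R3.Rot.SS d)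
        (HomeoPlusSphere (d + 1 + 1)) (fun f hf => hf.1) Pool.Agent.H534R3.Rot.RS
        Pool.Agent.H534R3.Rot.continuous_RS
        (fun s => ⟨Pool.Agent.H534R3.Rot.RS_bijective s, Pool.Agent.H534R3.Rot.RS_homotopic s⟩)
        Pool.Agent.H534R3.Rot.RS_zero Pool.Agent.H534R3.Rot.RS_add 1 one_pos
        Pool.Agent.H534R3.Rot.sphere_big (borel _) rfl

end Pool.Agent.Results.MP_4235af_lc.BallsAndSpheres
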